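import Pool.Agent.P8H32.LW.TorusG

/-!
# MP_c95b3b_ag: Zilber's conjecture for families of subvarieties of tori with the tropicalizations along
# ARBITRARY hypersurfaces of the space of parameters: the exceptional parameters are pronull

The families: `F` is a finite system of polynomials in the coordinates `x ∈ (ℂˣ)^k` and in auxiliary
coordinates `y ∈ ℂ^N`, whose coefficients `a q β` are polynomials with integral coefficients in parameters
`t_i`, `i ∈ ι`, and `X_t` is the set of the `x` for which some `(x, y)` is a solution (`solT`).

Let `f_1, …, f_M` be ANY polynomials with integral coefficients in the parameters which are irreducible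
over `ℚ`, in any number of variables and of any degree, absolutely irreducible or not (for instance
`t_1`, `t_1 ^ 2 + t_2 ^ 2`, `t_1 ^ 3 - 2 t_2 ^ 3`, `t_1 t_2 - t_3 t_4 - 1`). Each coefficient has an order
along the hypersurface `f_l = 0`, the exact power of `f_l` which divides it (`OrderAlong`; the coefficients
in the supports are not zero). The condition `GenericT` says that the tropicalizations of the family along
these hypersurfaces exclude all linear subspaces of dimension less than `k - m`. `NoAtypicalT f K m X` says
that `X` has no atypical intersection with the cosets of algebraic subgroups of the torus by the points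
whose coordinates are units integral over `ℤ[Γ]`, if `X` is considered as a set of dimension `m`.

**Theorem.** The exceptional parameters, for which the member `X_t` has an atypical intersection, are a
pronull set (`ProNull`): for every `M₀` the closure of this set in the product of the `ℤ_p^ι` over the
primes `p` that do not divide `M₀` has Haar measure zero. In other words: for every `M₀` and `ε > 0` there
is a `q` prime to `M₀` such that the exceptional parameters are in at most `ε q ^ |ι|` residue classes
modulo `q`.

The starting theorem `RandomOrbits` proves this for hypersurfaces which are of degree one in the
distinguished parameter `t_0`. The starting theorem `ManyParameters` is about hypersurfaces of positive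
degree in `t_0`, and counts the exceptional parameters in boxes; a set with few elements in every box may
be dense in all `ℤ_p^ι`. Here the hypersurfaces are arbitrary, and different ones may depend on different
parameters. Being pronull is the property which gives the theorem for the parameters in random orbits of
thin groups, in arbitrary metric sequences and at the convergents of normal numbers (other result files).

The proof. A member is good if for each `l` a prime `p > P₀` divides `f_l(t)` but not `G_l(t)`, where `G_l`
is not divisible by `f_l` (local criterion of the starting library, in the form for orders along arbitrary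
irreducible polynomials). The new step: the set of the `t` for which no prime `p > P₀` divides `f(t)` but
not `G(t)` is pronull, for all irreducible `f` and all `G` which are not divisible by `f`. By Gauss's lemma
`f` and `G` are coprime as polynomials in one of the variables over the field of rational functions in the
others, and the integral model `R` of the function field of `f = 0` given by this variable has a number
field `L` such that the number of the homomorphisms of `R` to `𝔽_p` which do not kill `G` is
`p^s · |Hom(𝓞_L, 𝔽_p)| + O(p^(s - 1/2))` (theorem of Landau, Lang and Weil from the starting library); the
sum of `1/p` over the primes with `Hom(𝓞_L, 𝔽_p) ≠ ∅` diverges, and the local criterion for pronull sets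
of the starting library applies.
-/

set_option autoImplicit false

namespace Pool.Agent.Results.MP_c95b3b_ag.AllHypersurfaces

open Pool.Agent.R424.MP Pool.Agent.N24.RW
open Pool.Agent.P8H32.LW (OrderAlong torusG_null)

/-- **Zilber's conjecture for families of subvarieties of tori, tropicalizations along arbitrary
hypersurfaces of the space of parameters: the exceptional parameters are pronull.** -/
theorem result (ι : Type) [Fintype ι] (k N m M : ℕ) (κ : Type) [Finite κ]
    (supp : κ → Finset ((Fin k ⊕ Fin N) →₀ ℕ))
    (a : κ → ((Fin k ⊕ Fin N) →₀ ℕ) → MvPolynomial ι ℤ) (f : Fin M → MvPolynomial ι ℤ)
    (hf : ∀ l, Irreducible ((f l).map (Int.castRingHom ℚ)))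
    (e : Fin M → κ → ((Fin k ⊕ Fin N) →₀ ℕ) → ℕ)
    (he : ∀ l q, ∀ β ∈ supp q, OrderAlong (f l) (a q β) (e l q β)) (hgen : GenericT m supp e)
    (K : Subfield ℂ) [Countable K] (Γ : Finset ℂ) (hΓ : ∀ γ ∈ Γ, IsAlgebraic ℚ γ)
    (hΓK : ∀ γ ∈ Γ, γ ∈ K) :
    ProNull {t : ι → ℤ | ¬ NoAtypicalT (algebraMap (Algebra.adjoin ℤ (Γ : Set ℂ)) ℂ) K m
      (solT supp (fun q β => ((MvPolynomial.eval t (a q β) : ℤ) : ℂ)))} :=
  torusG_null supp a f hf e he hgen K Γ hΓ hΓK

end Pool.Agent.Results.MP_c95b3b_ag.AllHypersurfaces
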