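import Pool.Agent.P8H32.LW.TorusG
import Pool.Agent.N53.CF.All

/-!
# MP_c95b3b_ag: Zilber's conjecture for the members of two-parameter families of subvarieties of tori at
# the numerators and denominators of the convergents of a normal continued fraction

The families: `F` is a finite system of polynomials in the coordinates `x ∈ (ℂˣ)^k` and in auxiliary
coordinates `y ∈ ℂ^N`, whose coefficients `a q β` are polynomials with integral coefficients in two
parameters, and `X_t` is the set of the `x` for which some `(x, y)` is a solution (`solT`). Let
`f_1, …, f_M` be any polynomials with integral coefficients in the parameters which are irreducible over
`ℚ`. Each coefficient has an order along the curve `f_l = 0`, the exact power of `f_l` which divides it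
(`OrderAlong`). The condition `GenericT` says that the tropicalizations of the family along these curves
exclude all linear subspaces of dimension less than `k - m`. `NoAtypicalT f K m X` says that `X` has no
atypical intersection with the cosets of algebraic subgroups of the torus by the points whose coordinates
are units integral over `ℤ[Γ]`, if `X` is considered as a set of dimension `m`.

A number `α` in `(0, 1)` is continued fraction normal (`CFNormal`) if it is irrational and its orbit under
the Gauss map is distributed according to the Gauss measure `dx / ((1 + x) log 2)`. Let
`p_n / q_n = [0; a_1, …, a_n]` be the convergents of `α`, `cvg (dig α) n = (p_n, q_n)`.

**Theorem.** Let `α` be any continued fraction normal number. There is ONE set `E` of indices of natural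
density zero such that for ALL families as above with two parameters (all `k`, `N`, `m`, all systems of
equations, all irreducible `f_l`, all countable fields `K` and finite sets `Γ ⊆ K` of algebraic numbers) the
member `X_t` with `t = (p_n, q_n)` has no atypical intersections, for all but finitely many `n ∉ E`
(`TorusGoodAll`). Almost all real numbers in `(0, 1)` are continued fraction normal.

The convergents grow exponentially: only `O(log B)` parameters of the box `|t_i| ≤ B` occur, and the
condition on `α` has nothing to do with the families. The starting results are about the number of the
exceptional parameters in boxes (`ManyParameters`) and about almost all random orbits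
(`RandomOrbits`, hypersurfaces of degree one in one parameter); here nothing is random, for example `α` can
be the normal number of Adler, Keane and Smorodinsky.

The proof. A member is good if for each `l` a prime `p > P₀` divides `f_l(t)` but not `G_l(t)`, where `G_l`
is not divisible by `f_l`. The set of the `t` for which this is not true is pronull: Gauss's lemma and the
theorem of Landau, Lang and Weil for the number of the points of `f_l = 0` modulo `p`, see
`AllHypersurfaces` for this step. By the theorem of the project CF of the starting library the convergents
of a normal continued fraction are in a given pronull set only for indices of density zero; there are
countably many triples `(f, G, P₀)`, and a diagonal argument gives one set `E`.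
-/

set_option autoImplicit false

namespace Pool.Agent.Results.MP_c95b3b_ag.ConvergentsOfNormalNumbers

open MeasureTheory Filter Topology
open Pool.Agent.P8H32.LW (TorusGoodAll BadG badG_null torusG_master DatG)
open Pool.Agent.N53.CF (CFNormal cvg)
open Pool.Agent.W811.Stu (gauss dig)

theorem result :
    (∀ α : ℝ, CFNormal α → TorusGoodAll (cvg (dig α))) ∧
    (∀ᵐ α ∂(volume.restrict (Set.Ioo (0 : ℝ) 1)), CFNormal α) :=
  ⟨fun α hα => torusG_master fun x => Pool.Agent.N53.CF.main _ (badG_null x) α hα,
    Pool.Agent.N53.CF.t_TYP⟩

end Pool.Agent.Results.MP_c95b3b_ag.ConvergentsOfNormalNumbers
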