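import Pool.Agent.P8H32.LW.TorusG
import Pool.Agent.N24.RW.All
import Pool.Agent.N24.KM.All

/-!
# MP_c95b3b_ag: Zilber's conjecture for the members of families of subvarieties of tori along arbitrary
# sequences of parameters, for almost all multipliers

The families: `F` is a finite system of polynomials in the coordinates `x ∈ (ℂˣ)^k` and in auxiliary
coordinates `y ∈ ℂ^N`, whose coefficients `a q β` are polynomials with integral coefficients in parameters
`t_i`, `i ∈ ι`, and `X_t` is the set of the `x` for which some `(x, y)` is a solution (`solT`). Let
`f_1, …, f_M` be any polynomials with integral coefficients in the parameters which are irreducible over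
`ℚ`. Each coefficient has an order along the hypersurface `f_l = 0`, the exact power of `f_l` which divides
it (`OrderAlong`). The condition `GenericT` says that the tropicalizations of the family along these
hypersurfaces exclude all linear subspaces of dimension less than `k - m`. `NoAtypicalT f K m X` says that
`X` has no atypical intersection with the cosets of algebraic subgroups of the torus by the points whose
coordinates are units integral over `ℤ[Γ]`, if `X` is considered as a set of dimension `m`.

A sequence `c_0, c_1, …` of vectors of parameters is good (`TorusGoodAll`) if there is ONE set `E` of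
indices of density zero such that for ALL families as above (all `k`, `N`, `m`, all systems of equations,
all irreducible `f_l`, all countable fields `K` and finite sets `Γ ⊆ K` of algebraic numbers) the member
with the parameters `c_n` has no atypical intersections, for all but finitely many `n ∉ E`.

**Theorem.**
1. Let `f_{i,0}, f_{i,1}, …` (`i ∈ ι`) be functions which satisfy the hypothesis of Koksma's theorem on
   `[a_i, b_i]` (`Koksma`). Then `c_n = (⌊f_{i,n}(α_i)⌋)_i` is good for almost all `α` with
   `a_i ≤ α_i ≤ b_i`.
2. Let `a_{i,0}, a_{i,1}, …` (`i ∈ ι`) be ANY sequences of real numbers with mutual distances at least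
   `δ > 0`, for example any sequences of different integers (`n!`, `2 ^ n`, any enumeration of any
   infinite set of integers or of primes), and possibly all the same. Then `c_n = (⌊a_{i,n} α_i⌋)_i` is
   good for almost all `α`.
3. Let `k_0, k_1, …` be ANY sequence of different natural numbers, and `ξ_i ≠ 0`. Then
   `c_n = (⌊ξ_i α_i ^ k_n⌋)_i` is good for almost all `α` with all `α_i > 1`.

The starting results are about the number of the exceptional parameters in boxes (`ManyParameters`)
and about random orbits, with hypersurfaces of degree one in one parameter (`RandomOrbits`). Here there
is no condition of growth or regularity: the sequences can grow arbitrarily fast, there is one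
exceptional set for all families, and the hypersurfaces are arbitrary.

The proof. A member is good if for each `l` a prime `p > P₀` divides `f_l(t)` but not `G_l(t)`, where `G_l`
is not divisible by `f_l`. The set of the `t` for which this is not true is pronull (its closure in the
product of the `ℤ_p^ι` over the `p` prime to `M` has Haar measure zero, for all `M`): Gauss's lemma and the
theorem of Landau, Lang and Weil for the number of the points of `f_l = 0` modulo `p`, see
`AllHypersurfaces` for this step. By the theorem of Koksma in several variables (project KM of the
starting library) almost all metric sequences are in a given pronull set only for indices of density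
zero; there are countably many triples `(f, G, P₀)`, and a diagonal argument gives one set `E`.
-/

set_option autoImplicit false

namespace Pool.Agent.Results.MP_c95b3b_ag.MetricSequences

open MeasureTheory Filter Topology
open Pool.Agent.P8H32.LW (TorusGoodAll BadG badG_null torusG_master DatG)
open Pool.Agent.N24.KM (Koksma)

theorem result (ι : Type) [Fintype ι] :
    (∀ (a b : ι → ℝ) (f : ι → ℕ → ℝ → ℝ), (∀ i, a i < b i) → (∀ i, Koksma (a i) (b i) (f i)) →
      ∀ᵐ α : ι → ℝ, (∀ i, α i ∈ Set.Icc (a i) (b i)) → TorusGoodAll (fun n i => ⌊f i n (α i)⌋)) ∧
    (∀ (a : ι → ℕ → ℝ) (δ : ℝ), 0 < δ → (∀ i m n, m ≠ n → δ ≤ |a i m - a i n|) →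
      ∀ᵐ α : ι → ℝ, TorusGoodAll (fun n i => ⌊a i n * α i⌋)) ∧
    (∀ (k : ℕ → ℕ) (ξ : ι → ℝ), Function.Injective k → (∀ i, ξ i ≠ 0) →
      ∀ᵐ α : ι → ℝ, (∀ i, 1 < α i) → TorusGoodAll (fun n i => ⌊ξ i * α i ^ k n⌋)) :=
  Pool.Agent.N18.KM.parts Pool.Agent.N24.KM.main (κ := DatG ι) BadG badG_null TorusGoodAll
    fun _ hc => torusG_master hc

end Pool.Agent.Results.MP_c95b3b_ag.MetricSequences
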