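import Pool.Agent.P8H32.LW.TorusG
import Pool.Agent.N24.RW.All

/-!
# MP_c95b3b_ag: Zilber's conjecture for the members of families of subvarieties of tori along random
# orbits of Zariski dense groups, with the tropicalizations along ARBITRARY hypersurfaces of the space of
# parameters

The families: `F` is a finite system of polynomials in the coordinates `x ∈ (ℂˣ)^k` and in auxiliary
coordinates `y ∈ ℂ^N`, whose coefficients `a q β` are polynomials with integral coefficients in parameters
`t_i`, `i ∈ ι`, and `X_t` is the set of the `x` for which some `(x, y)` is a solution (`solT`).

Let `f_1, …, f_M` be ANY polynomials with integral coefficients in the parameters which are irreducible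
over `ℚ`, in any number of variables and of any degree, absolutely irreducible or not (for instance
`t_1`, `t_1 ^ 2 + t_2 ^ 2`, `t_1 ^ 3 - 2 t_2 ^ 3`, `t_1 t_2 - t_3 t_4 - 1`). Each coefficient has an order
along the hypersurface `f_l = 0`, the exact power of `f_l` which divides it (`OrderAlong`; the coefficients
in the supports are not zero). The condition `GenericT` says that the tropicalizations of the family along
these hypersurfaces exclude all linear subspaces of dimension less than `k - m`. `NoAtypicalT f K m X` says
that `X` has no atypical intersection with the cosets of algebraic subgroups of the torus by the points
whose coordinates are units integral over `ℤ[Γ]`, if `X` is considered as a set of dimension `m`.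

**Theorem.** Let `s_0, …, s_m'` be matrices in `SL_r(ℤ)`, `r ≥ 2`, which generate `SL_r(ℤ/q)` for all `q`
prime to some `q₀` (`Walk`; by strong approximation it is enough that they generate a Zariski dense
subgroup, possibly of infinite index). For almost all sequences `w` of indices and all `v ≠ 0` in `ℤ^r` there
is ONE set `E` of density zero such that for ALL families as above with `r` parameters (all `k`, `N`, `m`, all
systems of equations, all irreducible `f_l`, all `K` and `Γ`): for all but finitely many `n` outside `E` the
member with the parameters `s_(w (n-1)) ⋯ s_(w 0) v` has no atypical intersections (`TorusGoodAll`).

The starting theorem `RandomOrbits` proves this for hypersurfaces which are of degree one in the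
distinguished parameter `t_0`. The starting theorem `ManyParameters` is about hypersurfaces of positive
degree in `t_0`, and counts the exceptional parameters in boxes; a random orbit meets only
logarithmically many vectors of a box, and a counting theorem says nothing about it. Here the hypersurfaces
are arbitrary, and different ones may depend on different parameters.

The proof. A member is good if for each `l` a prime `p > P₀` divides `f_l(t)` but not `G_l(t)`, where `G_l`
is not divisible by `f_l` (local criterion of the starting library, in the form for orders along arbitrary
irreducible polynomials). The new step: the set of the `t` for which no prime `p > P₀` divides `f(t)` but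
not `G(t)` is pronull, for all irreducible `f` and all `G` which are not divisible by `f`. By Gauss's lemma
`f` and `G` are coprime as polynomials in one of the variables over the field of rational functions in the
others, and the integral model `R` of the function field of `f = 0` given by this variable has a number
field `L` such that the number of the homomorphisms of `R` to `𝔽_p` which do not kill `G` is
`p^s · |Hom(𝓞_L, 𝔽_p)| + O(p^(s - 1/2))` (theorem of Landau, Lang and Weil from the starting library); the
sum of `1/p` over the primes with `Hom(𝓞_L, 𝔽_p) ≠ ∅` diverges, and the local criterion for pronull sets
applies. Random orbits visit pronull sets almost never (starting library), there are countably many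
triples `(f, G, P₀)`, and a diagonal argument gives one set `E`.
-/

set_option autoImplicit false

namespace Pool.Agent.Results.MP_c95b3b_ag.RandomOrbitsAllHypersurfaces

open Pool.Agent.N24.RW MeasureTheory Filter Topology
open Pool.Agent.P8H32.LW (TorusGoodAll BadG badG_null torusG_master DatG)

/-- **Zilber's conjecture for families of subvarieties of tori along random orbits, tropicalizations along
arbitrary hypersurfaces of the space of parameters.** -/
theorem result (ι : Type) [Fintype ι] [DecidableEq ι] (hι : 2 ≤ Fintype.card ι) (W : Walk ι) :
    ∀ᵐ w ∂(words W.m), ∀ v : ι → ℤ, v ≠ 0 → TorusGoodAll (orb W v w) := by
  refine ae_all_iff.2 fun v => ?_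
  by_cases hv : v = 0
  · exact ae_of_all _ fun w h => absurd hv h
  have h1 : ∀ᵐ w ∂(words W.m), ∀ x : DatG ι, Pool.Agent.N24.KM.Rarely (orb W v w) (BadG x) :=
    ae_all_iff.2 fun x => main ι hι W v hv _ (badG_null x)
  filter_upwards [h1] with w hw _
  exact torusG_master hw

end Pool.Agent.Results.MP_c95b3b_ag.RandomOrbitsAllHypersurfaces
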